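import Pool.Agent.Helper70_BHT.Pair

/-! The recursion: if `X^(2m) + r` (`deg r < m`) is close to the square of a monic polynomial,
then `r` is small. -/

open Polynomial

namespace Helper70_BHT

variable {E : Type*} [Field E] {v : AbsoluteValue E ℝ} {S A : ℝ}

lemma sum_le' (hA1 : 1 ≤ A) (hA : ∀ x y, v (x + y) ≤ A * max (v x) (v y)) {ι : Type*}
    (T : Finset ι) (x : ι → E) {M : ℝ} (hM : 0 ≤ M) (hx : ∀ i ∈ T, v (x i) ≤ M) :
    v (∑ i ∈ T, x i) ≤ A ^ T.card * M := by
  classical
  induction T using Finset.induction_on with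
  | empty => simpa using hM
  | insert a T ha ih =>
    rw [Finset.sum_insert ha, Finset.card_insert_of_notMem ha]
    have h1 := ih (fun i hi => hx i (Finset.mem_insert_of_mem hi))
    have h2 := hx a (Finset.mem_insert_self a T)
    have hp : 1 ≤ A ^ T.card := one_le_pow₀ hA1
    calc v (x a + ∑ i ∈ T, x i) ≤ A * max (v (x a)) (v (∑ i ∈ T, x i)) := hA _ _
      _ ≤ A * (A ^ T.card * M) := by
          refine mul_le_mul_of_nonneg_left (max_le ?_ h1) (by linarith)
          nlinarith
      _ = A ^ (T.card + 1) * M := by ring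

theorem recur (hA1 : 1 ≤ A) (hA : ∀ x y, v (x + y) ≤ A * max (v x) (v y)) (hS : 0 < S)
    (h2 : (2 : E) ≠ 0) {m : ℕ} (hm : 1 ≤ m) {r h : E[X]} (hr : r.natDegree < m)
    (hh : h.Monic) (hhd : h.natDegree = m) {μ : ℝ} (hμ0 : 0 ≤ μ) (hμ1 : μ ≤ 1)
    (he : SB v S (X ^ (2 * m) + r - h ^ 2) (A ^ (3 * m) * μ * S ^ (2 * m)))
    {α : E} (hα : (X ^ (2 * m) + r).eval α = 0) (hαS : v α = S) :
    1 ≤ A ^ (4 * m + 1) * (A ^ (3 * m + 1) / v 2) ^ (4 * m) * μ := by
  classical
  have hA0 : 0 < A := lt_of_lt_of_le one_pos hA1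
  have hv2 : 0 < v 2 := v.pos h2
  have hv2A : v 2 ≤ A := by
    have := hA 1 1
    rw [one_add_one_eq_two, v.map_one, max_self, mul_one] at this
    exact this
  set Λ : ℝ := A ^ (3 * m + 1) / v 2 with hΛ
  have hΛ1 : 1 ≤ Λ := by
    rw [hΛ, le_div_iff₀ hv2, one_mul]
    calc v 2 ≤ A := hv2A
      _ = A ^ 1 := (pow_one A).symm
      _ ≤ A ^ (3 * m + 1) := pow_le_pow_right₀ hA1 (by omega)
  have hΛ0 : 0 < Λ := by linarith
  have hΛ2 : v 2 * Λ = A ^ (3 * m + 1) := by rw [hΛ]; field_simp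
  set g : E[X] := h - X ^ m with hg
  have hgc : ∀ p, m ≤ p → g.coeff p = 0 := by
    intro p hp
    rw [hg, coeff_sub, coeff_X_pow]
    rcases eq_or_lt_of_le hp with rfl | h'
    · rw [if_pos rfl]
      have : h.coeff m = 1 := by
        have := hh.coeff_natDegree
        rwa [hhd] at this
      rw [this, sub_self]
    · rw [if_neg (by omega), coeff_eq_zero_of_natDegree_lt (by omega), sub_zero]
  have hdec : X ^ (2 * m) + r - h ^ 2 = r - C 2 * (X ^ m * g) - g * g := by
    have : h = X ^ m + g := by rw [hg]; ring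
    rw [this, show (C (2 : E) : E[X]) = 2 from rfl]
    ring
  -- products
  have hprod : ∀ (s t : ℕ), v (g.coeff s) * S ^ s * Λ ^ (2 * s + 1) ≤ μ * S ^ m * Λ ^ (2 * m) →
      v (g.coeff t) * S ^ t * Λ ^ (2 * t + 1) ≤ μ * S ^ m * Λ ^ (2 * m) →
      v (g.coeff s * g.coeff t) * S ^ (s + t) * Λ ^ (2 * (s + t) + 2) ≤
        μ * S ^ (2 * m) * Λ ^ (4 * m) := by
    intro s t hs ht
    have h1 := mul_le_mul hs ht (by positivity) (by positivity)
    calc v (g.coeff s * g.coeff t) * S ^ (s + t) * Λ ^ (2 * (s + t) + 2)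
        = v (g.coeff s) * S ^ s * Λ ^ (2 * s + 1) * (v (g.coeff t) * S ^ t * Λ ^ (2 * t + 1)) := by
          rw [v.map_mul]; ring
      _ ≤ μ * S ^ m * Λ ^ (2 * m) * (μ * S ^ m * Λ ^ (2 * m)) := h1
      _ = μ * (μ * S ^ (2 * m) * Λ ^ (4 * m)) := by ring
      _ ≤ 1 * (μ * S ^ (2 * m) * Λ ^ (4 * m)) := by gcongr
      _ = μ * S ^ (2 * m) * Λ ^ (4 * m) := one_mul _
  -- the main recursion
  have hQ : ∀ p, v (g.coeff p) * S ^ p * Λ ^ (2 * p + 1) ≤ μ * S ^ m * Λ ^ (2 * m) := by
    have hstep : ∀ k p, m ≤ p + k →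
        v (g.coeff p) * S ^ p * Λ ^ (2 * p + 1) ≤ μ * S ^ m * Λ ^ (2 * m) := by
      intro k
      induction k with
      | zero =>
        intro p hp
        rw [hgc p (by omega)]
        simp; positivity
      | succ k ih =>
        intro p hp
        rcases Nat.lt_or_ge p m with hpm | hpm
        swap
        · rw [hgc p hpm]
          simp; positivity
        have hc : (X ^ (2 * m) + r - h ^ 2).coeff (p + m) = - (2 * g.coeff p) -
            (g * g).coeff (p + m) := by
          rw [hdec, coeff_sub, coeff_sub, coeff_C_mul, coeff_X_pow_mul,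
            coeff_eq_zero_of_natDegree_lt (p := r) (by omega)]
          ring
        have hkey : 2 * g.coeff p = - ((X ^ (2 * m) + r - h ^ 2).coeff (p + m) +
            (g * g).coeff (p + m)) := by rw [hc]; ring
        -- bound of the square
        set M : ℝ := μ * S ^ (2 * m) * Λ ^ (4 * m) / (S ^ (p + m) * Λ ^ (2 * (p + m) + 2)) with hM
        have hM0 : 0 ≤ M := by positivity
        have hsq : v ((g * g).coeff (p + m)) ≤ A ^ (2 * m) * M := by
          rw [coeff_mul]
          refine (sum_le' hA1 hA _ _ hM0 ?_).trans ?_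
          · rintro ⟨s, t⟩ hst
            rw [Finset.HasAntidiagonal.mem_antidiagonal] at hst
            simp only at hst ⊢
            by_cases hs : m ≤ s
            · rw [hgc s hs, zero_mul, v.map_zero]; exact hM0
            by_cases ht : m ≤ t
            · rw [hgc t ht, mul_zero, v.map_zero]; exact hM0
            have h1 := hprod s t (ih s (by omega)) (ih t (by omega))
            rw [hst] at h1
            rw [hM, le_div_iff₀ (by positivity), ← mul_assoc]
            exact h1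
          · rw [Finset.Nat.card_antidiagonal]
            gcongr
            omega
        have hev : v ((X ^ (2 * m) + r - h ^ 2).coeff (p + m)) ≤
            A ^ (3 * m) * μ * S ^ (2 * m) / S ^ (p + m) := by
          rw [le_div_iff₀ (by positivity)]
          exact he (p + m)
        have h3 : v 2 * v (g.coeff p) ≤ A * max (A ^ (3 * m) * μ * S ^ (2 * m) / S ^ (p + m))
            (A ^ (2 * m) * M) := by
          rw [← v.map_mul, hkey, v.map_neg]
          refine (hA _ _).trans ?_
          refine mul_le_mul_of_nonneg_left (max_le_max hev hsq) hA0.le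
        have hT : max (A ^ (3 * m) * μ * S ^ (2 * m) / S ^ (p + m)) (A ^ (2 * m) * M) *
            (S ^ p * Λ ^ (2 * p + 2)) ≤ A ^ (3 * m) * (μ * S ^ m * Λ ^ (2 * m)) := by
          rw [max_mul_of_nonneg _ _ (by positivity)]
          refine max_le ?_ ?_
          · calc A ^ (3 * m) * μ * S ^ (2 * m) / S ^ (p + m) * (S ^ p * Λ ^ (2 * p + 2))
                = A ^ (3 * m) * (μ * S ^ m * Λ ^ (2 * p + 2)) := by
                  rw [pow_add S p m, show 2 * m = m + m by ring, pow_add S m m]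
                  field_simp
              _ ≤ A ^ (3 * m) * (μ * S ^ m * Λ ^ (2 * m)) := by
                  gcongr
                  omega
          · calc A ^ (2 * m) * M * (S ^ p * Λ ^ (2 * p + 2))
                = A ^ (2 * m) * (μ * S ^ m * Λ ^ (2 * m)) := by
                  rw [hM, pow_add S p m, show 2 * (p + m) + 2 = (2 * p + 2) + 2 * m by ring,
                    pow_add Λ (2 * p + 2) (2 * m), show 4 * m = 2 * m + 2 * m by ring,
                    pow_add Λ (2 * m) (2 * m), show S ^ (2 * m) = S ^ m * S ^ m by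
                      rw [← pow_add]; congr 1; ring]
                  field_simp
              _ ≤ A ^ (3 * m) * (μ * S ^ m * Λ ^ (2 * m)) := by
                  gcongr
                  norm_num
        have h4 : v 2 * v (g.coeff p) * (S ^ p * Λ ^ (2 * p + 2)) ≤
            A ^ (3 * m + 1) * (μ * S ^ m * Λ ^ (2 * m)) := by
          calc v 2 * v (g.coeff p) * (S ^ p * Λ ^ (2 * p + 2))
              ≤ A * max (A ^ (3 * m) * μ * S ^ (2 * m) / S ^ (p + m))
                (A ^ (2 * m) * M) * (S ^ p * Λ ^ (2 * p + 2)) := by gcongr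
            _ = A * (max (A ^ (3 * m) * μ * S ^ (2 * m) / S ^ (p + m))
                (A ^ (2 * m) * M) * (S ^ p * Λ ^ (2 * p + 2))) := by ring
            _ ≤ A * (A ^ (3 * m) * (μ * S ^ m * Λ ^ (2 * m))) := by
                refine mul_le_mul_of_nonneg_left hT hA0.le
            _ = A ^ (3 * m + 1) * (μ * S ^ m * Λ ^ (2 * m)) := by ring
        have h5 : v 2 * v (g.coeff p) * (S ^ p * Λ ^ (2 * p + 2)) =
            A ^ (3 * m + 1) * (v (g.coeff p) * S ^ p * Λ ^ (2 * p + 1)) := by
          rw [← hΛ2]; ring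
        rw [h5] at h4
        exact le_of_mul_le_mul_left h4 (by positivity)
    intro p
    exact hstep m p (by omega)
  -- coefficients of r
  have hrj : ∀ j, j < m → v (r.coeff j) * S ^ j ≤ A ^ (3 * m + 1) * Λ ^ (4 * m) * μ * S ^ (2 * m) := by
    intro j hj
    have hc : r.coeff j = (X ^ (2 * m) + r - h ^ 2).coeff j + (g * g).coeff j := by
      rw [hdec, coeff_sub, coeff_sub, coeff_C_mul, coeff_X_pow_mul', if_neg (by omega)]
      ring
    set M : ℝ := μ * S ^ (2 * m) * Λ ^ (4 * m) / S ^ j with hM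
    have hM0 : 0 ≤ M := by positivity
    have hsq : v ((g * g).coeff j) ≤ A ^ (3 * m) * M := by
      rw [coeff_mul]
      refine (sum_le' hA1 hA _ _ hM0 ?_).trans ?_
      · rintro ⟨s, t⟩ hst
        rw [Finset.HasAntidiagonal.mem_antidiagonal] at hst
        simp only at hst ⊢
        have h1 := hprod s t (hQ s) (hQ t)
        rw [hst] at h1
        rw [hM, le_div_iff₀ (by positivity)]
        refine le_trans ?_ h1
        have : 1 ≤ Λ ^ (2 * j + 2) := one_le_pow₀ hΛ1
        have h0 : 0 ≤ v (g.coeff s * g.coeff t) * S ^ j := by positivity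
        nlinarith
      · rw [Finset.Nat.card_antidiagonal]
        gcongr
        omega
    have hev : v ((X ^ (2 * m) + r - h ^ 2).coeff j) ≤ A ^ (3 * m) * M := by
      have h1 := he j
      rw [hM, ← mul_div_assoc, le_div_iff₀ (by positivity)]
      refine h1.trans ?_
      have : 1 ≤ Λ ^ (4 * m) := one_le_pow₀ hΛ1
      calc A ^ (3 * m) * μ * S ^ (2 * m) = A ^ (3 * m) * (μ * S ^ (2 * m) * 1) := by ring
        _ ≤ A ^ (3 * m) * (μ * S ^ (2 * m) * Λ ^ (4 * m)) := by gcongr
    rw [hc]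
    calc v ((X ^ (2 * m) + r - h ^ 2).coeff j + (g * g).coeff j) * S ^ j
        ≤ A * (A ^ (3 * m) * M) * S ^ j := by
          gcongr
          refine (hA _ _).trans ?_
          exact mul_le_mul_of_nonneg_left (max_le hev hsq) hA0.le
      _ = A ^ (3 * m + 1) * Λ ^ (4 * m) * μ * S ^ (2 * m) := by
          rw [hM]; field_simp; ring
  -- evaluate at the root
  have hev : α ^ (2 * m) = - ∑ j ∈ Finset.range m, r.coeff j * α ^ j := by
    have h1 : r.eval α = ∑ j ∈ Finset.range m, r.coeff j * α ^ j :=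
      eval_eq_sum_range' hr α
    rw [eval_add, eval_pow, eval_X, h1] at hα
    exact eq_neg_of_add_eq_zero_left hα
  have hfin : S ^ (2 * m) ≤ A ^ m * (A ^ (3 * m + 1) * Λ ^ (4 * m) * μ * S ^ (2 * m)) := by
    have h1 : v (α ^ (2 * m)) ≤
        A ^ (Finset.range m).card * (A ^ (3 * m + 1) * Λ ^ (4 * m) * μ * S ^ (2 * m)) := by
      rw [hev, v.map_neg]
      refine sum_le' hA1 hA _ _ (by positivity) ?_
      intro j hj
      rw [v.map_mul, v.map_pow, hαS]
      exact hrj j (Finset.mem_range.mp hj)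
    rwa [v.map_pow, hαS, Finset.card_range] at h1
  have hS2 : 0 < S ^ (2 * m) := pow_pos hS _
  have h6 : S ^ (2 * m) * 1 ≤ S ^ (2 * m) * (A ^ (4 * m + 1) * Λ ^ (4 * m) * μ) := by
    calc S ^ (2 * m) * 1 = S ^ (2 * m) := mul_one _
      _ ≤ _ := hfin
      _ = _ := by
        rw [show 4 * m + 1 = m + (3 * m + 1) by ring, pow_add]; ring
  exact le_of_mul_le_mul_left h6 hS2

/-- if the closeness relation at scale `δ ≤ S` is transitive on the roots and all its classes
are even, then `δ ≥ c S` -/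
theorem key (hA1 : 1 ≤ A) (hA : ∀ x y, v (x + y) ≤ A * max (v x) (v y)) (hS : 0 < S)
    (h2 : (2 : E) ≠ 0) {m : ℕ} (hm : 1 ≤ m) {r : E[X]} (hr : r.natDegree < m)
    (hsp : (X ^ (2 * m) + r).Splits) {δ : ℝ} (hδ : 0 ≤ δ) (hδS : δ ≤ S)
    (hmax : ∀ α ∈ (X ^ (2 * m) + r).roots, v α ≤ S)
    (hatt : ∃ α ∈ (X ^ (2 * m) + r).roots, v α = S)
    (htr : ∀ α ∈ (X ^ (2 * m) + r).roots, ∀ β ∈ (X ^ (2 * m) + r).roots,
      ∀ γ ∈ (X ^ (2 * m) + r).roots, v (α - β) ≤ δ → v (β - γ) ≤ δ → v (α - γ) ≤ δ)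
    (heven : ∀ ζ ∈ (X ^ (2 * m) + r).roots, ∀ [DecidablePred fun α : E => v (α - ζ) ≤ δ],
      Even ((X ^ (2 * m) + r).roots.countP (fun α => v (α - ζ) ≤ δ))) :
    S ≤ A ^ (4 * m + 1) * (A ^ (3 * m + 1) / v 2) ^ (4 * m) * δ := by
  have hdeg : r.degree < ((2 * m : ℕ) : WithBot ℕ) := by
    refine lt_of_le_of_lt degree_le_natDegree ?_
    exact_mod_cast (by omega : r.natDegree < 2 * m)
  have hmon : (X ^ (2 * m) + r).Monic := monic_X_pow_add hdeg
  have hnat : (X ^ (2 * m) + r).natDegree = 2 * m := by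
    rw [natDegree_add_eq_left_of_natDegree_lt] <;> rw [natDegree_X_pow]
    omega
  have hcard : Multiset.card (X ^ (2 * m) + r).roots = 2 * m := by
    rw [← hsp.natDegree_eq_card_roots, hnat]
  obtain ⟨Z, hZc, hZ, -⟩ := pair hA1 hA hS hδ m _ hcard hmax htr heven
  rw [← hsp.eq_prod_roots_of_monic hmon] at hZ
  obtain ⟨α, hαr, hαS⟩ := hatt
  have hα0 : (X ^ (2 * m) + r).eval α = 0 := (mem_roots'.mp hαr).2
  have h1 := recur hA1 hA hS h2 hm hr (h := (Z.map (fun α => X - C α)).prod)
    (monic_multiset_prod_of_monic _ _ (fun a _ => monic_X_sub_C a))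
    (by rw [natDegree_multiset_prod_X_sub_C_eq_card, hZc])
    (μ := δ / S) (by positivity) ((div_le_one hS).mpr hδS)
    (by
      have : A ^ (3 * m) * δ * S ^ (2 * m) / S = A ^ (3 * m) * (δ / S) * S ^ (2 * m) := by ring
      rw [← this]; exact hZ) hα0 hαS
  have h3 := mul_le_mul_of_nonneg_left h1 hS.le
  calc S = S * 1 := (mul_one S).symm
    _ ≤ _ := h3
    _ = A ^ (4 * m + 1) * (A ^ (3 * m + 1) / v 2) ^ (4 * m) * δ := by field_simp

/-- size of the coefficients in terms of the roots -/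
theorem coeff_le (hA1 : 1 ≤ A) (hA : ∀ x y, v (x + y) ≤ A * max (v x) (v y)) (hS : 0 < S)
    {m : ℕ} (hm : 1 ≤ m) {r : E[X]} (hr : r.natDegree < m)
    (hsp : (X ^ (2 * m) + r).Splits)
    (hmax : ∀ α ∈ (X ^ (2 * m) + r).roots, v α ≤ S) {j : ℕ} (hj : j < m) :
    v (r.coeff j) ≤ A ^ (2 * m) * S ^ (2 * m - j) := by
  have hdeg : r.degree < ((2 * m : ℕ) : WithBot ℕ) := by
    refine lt_of_le_of_lt degree_le_natDegree ?_
    exact_mod_cast (by omega : r.natDegree < 2 * m)
  have hmon : (X ^ (2 * m) + r).Monic := monic_X_pow_add hdeg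
  have hnat : (X ^ (2 * m) + r).natDegree = 2 * m := by
    rw [natDegree_add_eq_left_of_natDegree_lt] <;> rw [natDegree_X_pow]
    omega
  have hcard : Multiset.card (X ^ (2 * m) + r).roots = 2 * m := by
    rw [← hsp.natDegree_eq_card_roots, hnat]
  have h1 := SB.prod hA1 hA hS _ hmax
  rw [← hsp.eq_prod_roots_of_monic hmon, hcard] at h1
  have h2 := h1 j
  have h3 : (X ^ (2 * m) + r).coeff j = r.coeff j := by
    rw [coeff_add, coeff_X_pow, if_neg (by omega), zero_add]
  rw [h3, mul_pow, show S ^ (2 * m) = S ^ (2 * m - j) * S ^ j by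
    rw [← pow_add]; congr 1; omega, ← mul_assoc] at h2
  exact le_of_mul_le_mul_right h2 (pow_pos hS _)

end Helper70_BHT
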