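import Pool.Agent.Helper27_BHT.Stmts
import Pool.Agent.Helper70_BHT.Rec

/-! BHT modules G1 and G2. -/

open Polynomial

namespace Helper70_BHT

lemma exists_S {E : Type*} [Field E] (v : AbsoluteValue E ℝ) {m : ℕ} (hm : 1 ≤ m) {r : E[X]}
    (hr0 : r ≠ 0) (hr : r.natDegree < m) (hsp : (X ^ (2 * m) + r).Splits) :
    ∃ S : ℝ, 0 < S ∧ (∀ α ∈ (X ^ (2 * m) + r).roots, v α ≤ S) ∧
      ∃ α ∈ (X ^ (2 * m) + r).roots, v α = S := by
  classical
  have hdeg : r.degree < ((2 * m : ℕ) : WithBot ℕ) := by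
    refine lt_of_le_of_lt degree_le_natDegree ?_
    exact_mod_cast (by omega : r.natDegree < 2 * m)
  have hmon : (X ^ (2 * m) + r).Monic := monic_X_pow_add hdeg
  have hnat : (X ^ (2 * m) + r).natDegree = 2 * m := by
    rw [natDegree_add_eq_left_of_natDegree_lt] <;> rw [natDegree_X_pow]
    omega
  have hcard : Multiset.card (X ^ (2 * m) + r).roots = 2 * m := by
    rw [← hsp.natDegree_eq_card_roots, hnat]
  have hne : (X ^ (2 * m) + r).roots.toFinset.Nonempty := by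
    obtain ⟨α, hα⟩ := Multiset.card_pos_iff_exists_mem.mp
      (show 0 < Multiset.card (X ^ (2 * m) + r).roots by omega)
    exact ⟨α, Multiset.mem_toFinset.mpr hα⟩
  obtain ⟨α, hα, hmax⟩ := Finset.exists_max_image _ (fun α => v α) hne
  rw [Multiset.mem_toFinset] at hα
  refine ⟨v α, ?_, fun β hβ => hmax β (Multiset.mem_toFinset.mpr hβ), α, hα, rfl⟩
  rcases (v.nonneg α).lt_or_eq with h | h
  · exact h
  exfalso
  have hall : ∀ β ∈ (X ^ (2 * m) + r).roots, β = 0 := by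
    intro β hβ
    have h1 := hmax β (Multiset.mem_toFinset.mpr hβ)
    rw [← h] at h1
    exact v.eq_zero.mp (le_antisymm h1 (v.nonneg _))
  have hrep := Multiset.eq_replicate.mpr ⟨hcard, hall⟩
  have hf := hsp.eq_prod_roots_of_monic hmon
  rw [hrep, Multiset.map_replicate, Multiset.prod_replicate, C_0, sub_zero] at hf
  exact hr0 (by simpa using hf)

theorem g2 : BHT.G2Stmt := by
  intro m hm
  refine ⟨8 * m ^ 2, ?_⟩
  intro E _ v hv h2 r hr0 hr hsp j hj δ hδ hδj
  by_contra hcon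
  push Not at hcon
  obtain ⟨S, hS, hmax, hatt⟩ := exists_S v hm hr0 hr hsp
  have hA : ∀ x y, v (x + y) ≤ 1 * max (v x) (v y) := fun x y => by
    rw [one_mul]; exact hv x y
  have hv2 : v 2 ≤ 1 := by
    have := hA 1 1
    rwa [one_add_one_eq_two, v.map_one, max_self, mul_one] at this
  have hv20 : 0 < v 2 := v.pos h2
  have hrj := coeff_le le_rfl hA hS hm hr hsp hmax hj
  rw [one_pow, one_mul] at hrj
  have hn : 2 * m - j ≠ 0 := by omega
  have h1 : δ ^ (2 * m - j) < v 2 ^ (8 * m ^ 2) * S ^ (2 * m - j) :=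
    lt_of_lt_of_le hδj (mul_le_mul_of_nonneg_left hrj (by positivity))
  have hδS : δ ≤ S := by
    by_contra h
    push Not at h
    have h3 : S ^ (2 * m - j) ≤ δ ^ (2 * m - j) := by gcongr
    have h4 : v 2 ^ (8 * m ^ 2) ≤ 1 := pow_le_one₀ hv20.le hv2
    have h5 : 0 < S ^ (2 * m - j) := pow_pos hS _
    nlinarith
  have hk := key le_rfl hA hS h2 hm hr hsp hδ.le hδS hmax hatt
    (by
      intro α _ β _ γ _ hab hbc
      have : α - γ = (α - β) + (β - γ) := by ring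
      rw [this]
      exact (hv _ _).trans (max_le hab hbc))
    (by
      intro ζ _ _
      have h3 := hcon ζ
      rw [Nat.not_odd_iff_even] at h3
      unfold BHT.cnt at h3
      convert h3)
  rw [one_pow, one_pow, one_mul, one_div, inv_pow] at hk
  have hk' : v 2 ^ (4 * m) * S ≤ δ := by
    rw [inv_mul_eq_div, le_div_iff₀ (by positivity)] at hk
    linarith
  have h6 : v 2 ^ (8 * m ^ 2) * S ^ (2 * m - j) ≤ (v 2 ^ (4 * m) * S) ^ (2 * m - j) := by
    rw [mul_pow, ← pow_mul]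
    refine mul_le_mul_of_nonneg_right ?_ (by positivity)
    refine pow_le_pow_of_le_one hv20.le hv2 ?_
    calc 4 * m * (2 * m - j) ≤ 4 * m * (2 * m) := Nat.mul_le_mul_left _ (Nat.sub_le _ _)
      _ = 8 * m ^ 2 := by ring
  have h7 : (v 2 ^ (4 * m) * S) ^ (2 * m - j) ≤ δ ^ (2 * m - j) := by gcongr
  linarith

theorem g1 : BHT.G1Stmt := by
  classical
  intro m hm
  set v : AbsoluteValue ℂ ℝ := NormedField.toAbsoluteValue ℂ with hv
  have hvn : ∀ x, v x = ‖x‖ := fun x => rfl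
  have hA : ∀ x y, v (x + y) ≤ 2 * max (v x) (v y) := fun x y => by
    rw [hvn, hvn, hvn]
    refine (norm_add_le x y).trans ?_
    have := le_max_left ‖x‖ ‖y‖
    have := le_max_right ‖x‖ ‖y‖
    linarith
  have hv2 : v 2 = 2 := by rw [hvn]; simp
  set Cc : ℝ := 2 ^ (4 * m + 1) * (2 ^ (3 * m + 1) / v 2) ^ (4 * m) with hCc
  have hCc1 : 1 ≤ Cc := by
    have h1 : (1 : ℝ) ≤ 2 ^ (4 * m + 1) := one_le_pow₀ (by norm_num)
    have h2 : (1 : ℝ) ≤ 2 ^ (3 * m + 1) / v 2 := by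
      rw [hv2, pow_succ, mul_div_assoc, div_self (by norm_num : (2 : ℝ) ≠ 0), mul_one]
      exact one_le_pow₀ (by norm_num)
    have h3 : (1 : ℝ) ≤ (2 ^ (3 * m + 1) / v 2) ^ (4 * m) := one_le_pow₀ h2
    calc (1 : ℝ) = 1 * 1 := by norm_num
      _ ≤ Cc := mul_le_mul h1 h3 (by norm_num) (by positivity)
  set ε : ℝ := 1 / (2 * Cc * 3 ^ (4 * m ^ 2)) with hε
  have hε0 : 0 < ε := by positivity
  have hε1 : 2 * ε ≤ 1 := by
    rw [hε]
    have h3 : (1 : ℝ) ≤ 3 ^ (4 * m ^ 2) := one_le_pow₀ (by norm_num)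
    have : (1 : ℝ) ≤ Cc * 3 ^ (4 * m ^ 2) := by nlinarith
    rw [mul_one_div, div_le_one (by positivity)]
    nlinarith
  have hε2 : ε * 3 ^ (4 * m ^ 2) * (2 * Cc) = 1 := by rw [hε]; field_simp
  refine ⟨ε ^ (2 * m), by positivity, ?_⟩
  intro r hr0 hr j hj
  have hsp : (X ^ (2 * m) + r : ℂ[X]).Splits := IsAlgClosed.splits _
  obtain ⟨S, hS, hmax, hatt⟩ := exists_S v hm hr0 hr hsp
  have hdeg : r.degree < ((2 * m : ℕ) : WithBot ℕ) := by
    refine lt_of_le_of_lt degree_le_natDegree ?_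
    exact_mod_cast (by omega : r.natDegree < 2 * m)
  have hnat : (X ^ (2 * m) + r).natDegree = 2 * m := by
    rw [natDegree_add_eq_left_of_natDegree_lt] <;> rw [natDegree_X_pow]
    omega
  have hcard : Multiset.card (X ^ (2 * m) + r).roots = 2 * m := by
    rw [← hsp.natDegree_eq_card_roots, hnat]
  set T := (X ^ (2 * m) + r).roots.toFinset with hT
  have hTc : T.card ≤ 2 * m := by
    rw [← hcard]; exact Multiset.toFinset_card_le _
  set D : Finset ℝ := (T ×ˢ T).image (fun p => ‖p.1 - p.2‖) with hD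
  have hDc : D.card ≤ 4 * m ^ 2 := by
    calc D.card ≤ (T ×ˢ T).card := Finset.card_image_le
      _ = T.card * T.card := Finset.card_product _ _
      _ ≤ (2 * m) * (2 * m) := Nat.mul_le_mul hTc hTc
      _ = 4 * m ^ 2 := by ring
  -- a scale without distances
  obtain ⟨k, hk, hgap⟩ : ∃ k, k ≤ 4 * m ^ 2 ∧ ∀ d ∈ D, d ≤ ε * 3 ^ k * S ∨
      3 * (ε * 3 ^ k * S) < d := by
    by_contra hcon
    push Not at hcon
    have h1 : ∀ k ∈ Finset.range (4 * m ^ 2 + 1), ∃ d ∈ D, ε * 3 ^ k * S < d ∧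
        d ≤ 3 * (ε * 3 ^ k * S) := fun k hk =>
      hcon k (by have := Finset.mem_range.mp hk; omega)
    choose! F hF using h1
    obtain ⟨x, hx, y, hy, hxy, hxyF⟩ := Finset.exists_ne_map_eq_of_card_lt_of_maps_to
      (s := Finset.range (4 * m ^ 2 + 1)) (t := D) (f := F)
      (by rw [Finset.card_range]; omega) (fun k hk => (hF k hk).1)
    have hmain : ∀ x ∈ Finset.range (4 * m ^ 2 + 1), ∀ y ∈ Finset.range (4 * m ^ 2 + 1),
        x < y → F x = F y → False := by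
      intro x hx y hy hlt heq
      have h2 := (hF x hx).2.2
      have h3 := (hF y hy).2.1
      have h4 : (3 : ℝ) ^ (x + 1) ≤ 3 ^ y := pow_le_pow_right₀ (by norm_num) hlt
      have h5 : 3 * (ε * 3 ^ x * S) ≤ ε * 3 ^ y * S := by
        calc 3 * (ε * 3 ^ x * S) = ε * 3 ^ (x + 1) * S := by ring
          _ ≤ ε * 3 ^ y * S := by gcongr
      rw [heq] at h2
      linarith
    rcases lt_or_gt_of_ne hxy with h | h
    · exact hmain x hx y hy h hxyF
    · exact hmain y hy x hx h hxyF.symm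
  set δ : ℝ := ε * 3 ^ k * S with hδ
  have hδ0 : 0 < δ := by positivity
  have h3k : (3 : ℝ) ^ k ≤ 3 ^ (4 * m ^ 2) := pow_le_pow_right₀ (by norm_num) hk
  have hδC : δ * (2 * Cc) ≤ S := by
    calc δ * (2 * Cc) = ε * 3 ^ k * (2 * Cc) * S := by rw [hδ]; ring
      _ ≤ ε * 3 ^ (4 * m ^ 2) * (2 * Cc) * S := by gcongr
      _ = S := by rw [hε2, one_mul]
  have hδS : δ ≤ S := by nlinarith
  have hgap' : ∀ α ∈ (X ^ (2 * m) + r).roots, ∀ β ∈ (X ^ (2 * m) + r).roots,
      ‖α - β‖ ≤ δ ∨ 3 * δ < ‖α - β‖ := by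
    intro α hα β hβ
    refine hgap _ ?_
    rw [hD, Finset.mem_image]
    exact ⟨(α, β), Finset.mem_product.mpr ⟨Multiset.mem_toFinset.mpr hα,
      Multiset.mem_toFinset.mpr hβ⟩, rfl⟩
  have hodd : ∃ ζ ∈ (X ^ (2 * m) + r).roots, Odd (BHT.cnt norm (X ^ (2 * m) + r) ζ δ) := by
    by_contra hcon
    push Not at hcon
    have hk := key (by norm_num : (1 : ℝ) ≤ 2) hA hS (by norm_num) hm hr hsp hδ0.le hδS hmax hatt
      (by
        intro α hα β hβ γ hγ hab hbc
        rw [hvn] at hab hbc ⊢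
        rcases hgap' α hα γ hγ with h | h
        · exact h
        · exfalso
          have h1 : ‖α - γ‖ ≤ ‖α - β‖ + ‖β - γ‖ := by
            have : α - γ = (α - β) + (β - γ) := by ring
            rw [this]; exact norm_add_le _ _
          linarith)
      (by
        intro ζ hζ _
        have h3 := hcon ζ hζ
        rw [Nat.not_odd_iff_even] at h3
        unfold BHT.cnt at h3
        convert h3
        exact hvn _)
    rw [← hCc] at hk
    nlinarith
  obtain ⟨ζ, hζ, hζo⟩ := hodd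
  refine ⟨ζ, δ, 3 * δ, hδ0.le, by linarith, ?_, hζo, ?_⟩
  · have hrj := coeff_le (by norm_num : (1 : ℝ) ≤ 2) hA hS hm hr hsp hmax hj
    rw [hvn] at hrj
    have hkS : ε * S ≤ δ := by
      have h3 : (1 : ℝ) ≤ 3 ^ k := one_le_pow₀ (by norm_num)
      calc ε * S = ε * 1 * S := by ring
        _ ≤ ε * 3 ^ k * S := by gcongr
    calc ε ^ (2 * m) * ‖r.coeff j‖ ≤ ε ^ (2 * m) * (2 ^ (2 * m) * S ^ (2 * m - j)) := by gcongr
      _ = (2 * ε) ^ (2 * m) * S ^ (2 * m - j) := by rw [mul_pow]; ring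
      _ ≤ (2 * ε) ^ (2 * m - j) * S ^ (2 * m - j) := by
          refine mul_le_mul_of_nonneg_right ?_ (by positivity)
          exact pow_le_pow_of_le_one (by positivity) hε1 (Nat.sub_le _ _)
      _ = (2 * (ε * S)) ^ (2 * m - j) := by rw [← mul_pow]; ring_nf
      _ ≤ (2 * δ) ^ (2 * m - j) := by gcongr
      _ = (3 * δ - δ) ^ (2 * m - j) := by ring_nf
  · intro α hα
    rcases hgap' α hα ζ hζ with h | h
    · exact Or.inl h
    · exact Or.inr h.le

end Helper70_BHT
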