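import Mathlib

/-! Approximate square root of a polynomial whose roots come in close pairs
(for a field with an absolute value satisfying `v (x+y) ≤ A max (v x) (v y)`). -/

open Polynomial

namespace Helper70_BHT

variable {E : Type*} [Field E]

/-- weighted sup bound for the coefficients -/
def SB (v : AbsoluteValue E ℝ) (S : ℝ) (g : E[X]) (c : ℝ) : Prop :=
  ∀ i, v (g.coeff i) * S ^ i ≤ c

section
variable {v : AbsoluteValue E ℝ} {S A : ℝ}

lemma SB.nonneg (hS : 0 < S) {g : E[X]} {c : ℝ} (h : SB v S g c) : 0 ≤ c :=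
  le_trans (mul_nonneg (v.nonneg _) (pow_nonneg hS.le _)) (h 0)

lemma SB.mono {g : E[X]} {c d : ℝ} (h : SB v S g c) (hcd : c ≤ d) : SB v S g d :=
  fun i => (h i).trans hcd

lemma sub_le (hA : ∀ x y, v (x + y) ≤ A * max (v x) (v y)) (x y : E) :
    v (x - y) ≤ A * max (v x) (v y) := by
  have := hA x (-y)
  rwa [v.map_neg, ← sub_eq_add_neg] at this

lemma SB.mul_X_sub_C (hA1 : 1 ≤ A) (hA : ∀ x y, v (x + y) ≤ A * max (v x) (v y)) (hS : 0 < S)
    {g : E[X]} {c : ℝ} (h : SB v S g c) {α : E} (hα : v α ≤ S) :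
    SB v S (g * (X - C α)) (A * S * c) := by
  have hc : 0 ≤ c := h.nonneg hS
  intro i
  cases i with
  | zero =>
    have h0 := h 0
    simp only [pow_zero, mul_one] at h0 ⊢
    rw [mul_coeff_zero]
    simp only [coeff_sub, coeff_X_zero, coeff_C_zero, zero_sub, v.map_mul, v.map_neg]
    calc v (g.coeff 0) * v α ≤ c * S := mul_le_mul h0 hα (v.nonneg _) hc
      _ = 1 * S * c := by ring
      _ ≤ A * S * c := by gcongr
  | succ a =>
    rw [coeff_mul_X_sub_C]
    have h1 := h a
    have h2 := h (a + 1)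
    have hSa : 0 < S ^ (a + 1) := pow_pos hS _
    have h3 : v (g.coeff a) * S ^ (a + 1) ≤ S * c := by
      calc v (g.coeff a) * S ^ (a + 1) = S * (v (g.coeff a) * S ^ a) := by ring
        _ ≤ S * c := by gcongr
    have h4 : v (g.coeff (a + 1) * α) * S ^ (a + 1) ≤ S * c := by
      rw [v.map_mul]
      calc v (g.coeff (a + 1)) * v α * S ^ (a + 1)
          = v α * (v (g.coeff (a + 1)) * S ^ (a + 1)) := by ring
        _ ≤ S * c := mul_le_mul hα h2 (by positivity) hS.le
    calc v (g.coeff a - g.coeff (a + 1) * α) * S ^ (a + 1)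
        ≤ A * max (v (g.coeff a)) (v (g.coeff (a + 1) * α)) * S ^ (a + 1) := by
          gcongr; exact sub_le hA _ _
      _ = A * (max (v (g.coeff a)) (v (g.coeff (a + 1) * α)) * S ^ (a + 1)) := by ring
      _ ≤ A * (S * c) := by
          refine mul_le_mul_of_nonneg_left ?_ (by linarith)
          rw [max_mul_of_nonneg _ _ hSa.le]
          exact max_le h3 h4
      _ = A * S * c := by ring

lemma SB.add (hA1 : 1 ≤ A) (hA : ∀ x y, v (x + y) ≤ A * max (v x) (v y)) (hS : 0 < S)
    {g h : E[X]} {c : ℝ} (hg : SB v S g c) (hh : SB v S h c) : SB v S (g + h) (A * c) := by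
  intro i
  have hSi : 0 < S ^ i := pow_pos hS _
  rw [coeff_add]
  calc v (g.coeff i + h.coeff i) * S ^ i ≤ A * max (v (g.coeff i)) (v (h.coeff i)) * S ^ i := by
        gcongr; exact hA _ _
    _ = A * (max (v (g.coeff i)) (v (h.coeff i)) * S ^ i) := by ring
    _ ≤ A * c := by
        refine mul_le_mul_of_nonneg_left ?_ (by linarith)
        rw [max_mul_of_nonneg _ _ hSi.le]
        exact max_le (hg i) (hh i)

lemma SB.mul_C {g : E[X]} {c : ℝ} (hg : SB v S g c) (a : E) : SB v S (g * C a) (c * v a) := by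
  intro i
  rw [coeff_mul_C, v.map_mul]
  calc v (g.coeff i) * v a * S ^ i = (v (g.coeff i) * S ^ i) * v a := by ring
    _ ≤ c * v a := mul_le_mul_of_nonneg_right (hg i) (v.nonneg _)

lemma SB.prod (hA1 : 1 ≤ A) (hA : ∀ x y, v (x + y) ≤ A * max (v x) (v y)) (hS : 0 < S)
    (R : Multiset E) (hR : ∀ α ∈ R, v α ≤ S) :
    SB v S (R.map (fun α => X - C α)).prod ((A * S) ^ Multiset.card R) := by
  induction R using Multiset.induction_on with
  | empty =>
    intro i
    simp only [Multiset.map_zero, Multiset.prod_zero, Multiset.card_zero, pow_zero, coeff_one]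
    split_ifs with h
    · simp [h]
    · simp
  | cons a R ih =>
    have h1 := ih (fun α hα => hR α (Multiset.mem_cons_of_mem hα))
    have h2 := h1.mul_X_sub_C hA1 hA hS (hR a (Multiset.mem_cons_self a R))
    rw [Multiset.map_cons, Multiset.prod_cons, Multiset.card_cons, pow_succ', mul_comm (X - C a)]
    exact h2

/-- the pairing lemma -/
theorem pair (hA1 : 1 ≤ A) (hA : ∀ x y, v (x + y) ≤ A * max (v x) (v y)) (hS : 0 < S)
    {δ : ℝ} (hδ : 0 ≤ δ) : ∀ (n : ℕ) (R : Multiset E), Multiset.card R = 2 * n →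
      (∀ α ∈ R, v α ≤ S) →
      (∀ α ∈ R, ∀ β ∈ R, ∀ γ ∈ R, v (α - β) ≤ δ → v (β - γ) ≤ δ → v (α - γ) ≤ δ) →
      (∀ ζ ∈ R, ∀ [DecidablePred fun α : E => v (α - ζ) ≤ δ],
        Even (R.countP (fun α => v (α - ζ) ≤ δ))) →
      ∃ Z : Multiset E, Multiset.card Z = n ∧
        SB v S ((R.map (fun α => X - C α)).prod - ((Z.map (fun α => X - C α)).prod) ^ 2)
          (A ^ (3 * n) * δ * S ^ (2 * n) / S) ∧ ∀ α ∈ Z, v α ≤ S := by
  classical
  intro n
  induction n with
  | zero =>
    intro R hR _ _ _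
    have : R = 0 := by simpa using hR
    subst this
    refine ⟨0, by simp, ?_, by simp⟩
    intro i
    simp
    positivity
  | succ n ih =>
    intro R hcard hRS htr heven
    have hA0 : 0 < A := lt_of_lt_of_le one_pos hA1
    obtain ⟨ζ, hζ⟩ : ∃ ζ, ζ ∈ R := by
      apply Multiset.card_pos_iff_exists_mem.mp
      omega
    obtain ⟨R1, rfl⟩ := Multiset.exists_cons_of_mem hζ
    have hpz : v (ζ - ζ) ≤ δ := by simpa using hδ
    have h1 := heven ζ hζ
    rw [Multiset.countP_cons_of_pos (p := fun α => v (α - ζ) ≤ δ) _ hpz] at h1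
    have h2 : 0 < R1.countP (fun α => v (α - ζ) ≤ δ) := by
      rcases Nat.eq_zero_or_pos (R1.countP (fun α => v (α - ζ) ≤ δ)) with h | h
      · rw [h] at h1; exact absurd h1 (by decide)
      · exact h
    obtain ⟨β, hβ, hpβ⟩ := Multiset.countP_pos.mp h2
    obtain ⟨R2, rfl⟩ := Multiset.exists_cons_of_mem hβ
    have hmem2 : ∀ α ∈ R2, α ∈ ζ ::ₘ β ::ₘ R2 := fun α hα =>
      Multiset.mem_cons_of_mem (Multiset.mem_cons_of_mem hα)
    have hmβ : β ∈ ζ ::ₘ β ::ₘ R2 := Multiset.mem_cons_of_mem (Multiset.mem_cons_self _ _)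
    have hmζ : ζ ∈ ζ ::ₘ β ::ₘ R2 := Multiset.mem_cons_self _ _
    have hsymm : v (ζ - β) ≤ δ := by rw [v.map_sub]; exact hpβ
    obtain ⟨Z', hZc, hZ, hZS⟩ := ih R2 (by simp at hcard; omega)
      (fun α hα => hRS α (hmem2 α hα))
      (fun α hα β' hβ' γ hγ => htr α (hmem2 α hα) β' (hmem2 _ hβ') γ (hmem2 _ hγ))
      (by
        intro ξ hξ _
        have h3 := heven ξ (hmem2 ξ hξ)
        by_cases hc : v (ζ - ξ) ≤ δ
        · have hc' : v (β - ξ) ≤ δ := htr β hmβ ζ hmζ ξ (hmem2 ξ hξ) hpβ hc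
          rw [Multiset.countP_cons_of_pos (p := fun α => v (α - ξ) ≤ δ) _ hc,
            Multiset.countP_cons_of_pos (p := fun α => v (α - ξ) ≤ δ) _ hc'] at h3
          rcases h3 with ⟨k, hk⟩
          exact ⟨k - 1, by omega⟩
        · have hc' : ¬ v (β - ξ) ≤ δ := fun h => hc (htr ζ hmζ β hmβ ξ (hmem2 ξ hξ) hsymm h)
          rw [Multiset.countP_cons_of_neg (p := fun α => v (α - ξ) ≤ δ) _ hc,
            Multiset.countP_cons_of_neg (p := fun α => v (α - ξ) ≤ δ) _ hc'] at h3
          exact h3)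
    refine ⟨ζ ::ₘ Z', by simp [hZc], ?_, ?_⟩
    · set f' := (R2.map (fun α => X - C α)).prod with hf'
      set h' := (Z'.map (fun α => X - C α)).prod with hh'
      have e1 : ((ζ ::ₘ β ::ₘ R2).map (fun α => X - C α)).prod -
          (((ζ ::ₘ Z').map (fun α => X - C α)).prod) ^ 2 =
          (f' - h' ^ 2) * (X - C ζ) * (X - C β) + h' ^ 2 * (X - C ζ) * C (ζ - β) := by
        simp only [Multiset.map_cons, Multiset.prod_cons, ← hf', ← hh', C_sub]
        ring
      rw [e1]
      have hζS := hRS ζ hmζ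
      have hβS := hRS β hmβ
      have b1 := (hZ.mul_X_sub_C hA1 hA hS hζS).mul_X_sub_C hA1 hA hS hβS
      have b2 : SB v S (h' ^ 2) ((A * S) ^ (2 * n)) := by
        have := SB.prod hA1 hA hS (Z' + Z') (by
          intro α hα
          rcases Multiset.mem_add.mp hα with h | h <;> exact hZS α h)
        rw [Multiset.map_add, Multiset.prod_add, ← hh', ← pow_two, Multiset.card_add, hZc,
          ← two_mul] at this
        exact this
      have b3 := (b2.mul_X_sub_C hA1 hA hS hζS).mul_C (ζ - β)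
      have key : A ^ (3 * n) * A ^ 2 * δ * S ^ (2 * (n + 1)) / S =
          A * S * (A * S * (A ^ (3 * n) * δ * S ^ (2 * n) / S)) := by
        field_simp
        ring
      have b1' : SB v S ((f' - h' ^ 2) * (X - C ζ) * (X - C β))
          (A ^ (3 * n) * A ^ 2 * δ * S ^ (2 * (n + 1)) / S) := by
        rw [key]; exact b1
      have b3' : SB v S (h' ^ 2 * (X - C ζ) * C (ζ - β))
          (A ^ (3 * n) * A ^ 2 * δ * S ^ (2 * (n + 1)) / S) := by
        refine b3.mono ?_
        rw [key]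
        have hδβ : v (ζ - β) ≤ δ := hsymm
        have hpow : A ^ (2 * n) ≤ A ^ (3 * n) := pow_le_pow_right₀ hA1 (by omega)
        calc A * S * (A * S) ^ (2 * n) * v (ζ - β) ≤ A * S * (A * S) ^ (2 * n) * δ := by gcongr
          _ = A * S * (A ^ (2 * n) * S ^ (2 * n) * δ) := by rw [mul_pow]; ring
          _ ≤ A * S * (A ^ (3 * n) * S ^ (2 * n) * δ) := by gcongr
          _ = A * S * (1 * (A ^ (3 * n) * δ * S ^ (2 * n))) := by ring
          _ ≤ A * S * (A * (A ^ (3 * n) * δ * S ^ (2 * n))) := by gcongr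
          _ = A * S * (A * S * (A ^ (3 * n) * δ * S ^ (2 * n) / S)) := by
            field_simp
      have b4 := b1'.add hA1 hA hS b3'
      refine b4.mono (le_of_eq ?_)
      ring
    · intro α hα
      rcases Multiset.mem_cons.mp hα with rfl | h
      · exact hRS _ hmζ
      · exact hZS α h

end

end Helper70_BHT
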